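import Pool.Agent.H898R3.Mix
import Pool.Agent.H923R2.FZ.All
import Pool.Agent.H308R2.ZS.All
import Pool.Agent.H308R2.ZS.Final

/-!
# The reduced free products `C([0,1]) * C([0,1])`, `Z * C([0,1])` and `Z * Z` are isomorphic

Here `Z` is the Jiang–Su algebra.  Idea: let `C = (C([0,1]), leb)` and let `W` be the reduced free
product of countably many copies of `C`.

1. Absorption: if at least two of the factors of a reduced free product contain a copy of `C`, then it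
   absorbs `W`.  As `Z` contains a copy of `C`, the three algebras absorb `W`.
2. `Z * W ≅ W` and `C * W ≅ W` (Hilbert hotel), hence the three algebras are isomorphic to `W`.
-/

set_option autoImplicit false

open scoped ComplexConjugate ComplexOrder Kronecker Matrix.Norms.L2Operator

noncomputable section

namespace Pool.Agent.Results.MP_19112f_an.ReducedFreeProducts

/-- The dimension drop algebra `Z_{p,q}`: continuous functions `f : [0,1] → M_p ⊗ M_q` with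
`f(0) ∈ M_p ⊗ 1` and `f(1) ∈ 1 ⊗ M_q`. -/
def dimDrop (p q : ℕ) :
    StarSubalgebra ℂ C(unitInterval, Matrix (Fin p × Fin q) (Fin p × Fin q) ℂ) where
  carrier := {f | (∃ a : Matrix (Fin p) (Fin p) ℂ, f 0 = a ⊗ₖ (1 : Matrix (Fin q) (Fin q) ℂ)) ∧
    ∃ b : Matrix (Fin q) (Fin q) ℂ, f 1 = (1 : Matrix (Fin p) (Fin p) ℂ) ⊗ₖ b}
  mul_mem' := (Pool.Agent.H923R2.FZ.ddrop p q).mul_mem'
  add_mem' := (Pool.Agent.H923R2.FZ.ddrop p q).add_mem'
  algebraMap_mem' := (Pool.Agent.H923R2.FZ.ddrop p q).algebraMap_mem'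
  star_mem' := (Pool.Agent.H923R2.FZ.ddrop p q).star_mem'

/-- `t` is a tracial state. -/
structure IsTracialState {A : Type} [CStarAlgebra A] (t : A →ₗ[ℂ] ℂ) : Prop where
  one : t 1 = 1
  comm : ∀ x y, t (x * y) = t (y * x)
  pos : ∀ x, 0 ≤ t (star x * x)

/-- `Z` is the Jiang–Su algebra: a simple unital C*-algebra with a unique tracial state, which is
the closure of an increasing union of subalgebras isomorphic to prime dimension drop algebras
`Z_{n,n+1}` with `n → ∞`. -/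
structure IsJiangSu (Z : Type) [CStarAlgebra Z] : Prop where
  nontrivial : Nontrivial Z
  simple : ∀ I : TwoSidedIdeal Z, IsClosed (I : Set Z) → I = ⊥ ∨ I = ⊤
  trace : ∃! t : Z →ₗ[ℂ] ℂ, IsTracialState t
  lim : ∃ (n : ℕ → ℕ) (D : ℕ → StarSubalgebra ℂ Z), Filter.Tendsto n Filter.atTop Filter.atTop ∧
    Monotone D ∧ (∀ k, Nonempty (D k ≃⋆ₐ[ℂ] dimDrop (n k + 1) (n k + 2))) ∧
    (⨆ k, D k).topologicalClosure = ⊤

/-- The value of an embedded letter. -/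
def letter {A B E : Type} [CStarAlgebra A] [CStarAlgebra B] [CStarAlgebra E] (i : A →⋆ₐ[ℂ] E)
    (j : B →⋆ₐ[ℂ] E) : A ⊕ B → E
  | Sum.inl a => i a
  | Sum.inr b => j b

/-- `(E, θ)` with the embeddings `i : A → E` and `j : B → E` is the reduced free product (Avitzour,
Voiculescu) of `(A, φ)` and `(B, ψ)`: `θ` is a state which restricts to `φ` on `A` and to `ψ` on
`B`, the two algebras are free with respect to `θ` (alternating products of centred elements have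
expectation zero), they generate `E` as a C*-algebra, and the GNS representation of `θ` is
faithful. -/
structure IsReducedFreeProduct {A B : Type} [CStarAlgebra A] [CStarAlgebra B] (φ : A → ℂ)
    (ψ : B → ℂ) {E : Type} [CStarAlgebra E] (θ : E →ₗ[ℂ] ℂ) (i : A →⋆ₐ[ℂ] E)
    (j : B →⋆ₐ[ℂ] E) : Prop where
  one : θ 1 = 1
  pos : ∀ x, 0 ≤ θ (star x * x)
  left : ∀ a, θ (i a) = φ a
  right : ∀ b, θ (j b) = ψ b
  free : ∀ w : List (A ⊕ B), w ≠ [] → w.IsChain (fun x y => x.isLeft ≠ y.isLeft) →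
    (∀ z ∈ w, Sum.elim φ ψ z = 0) → θ ((w.map (letter i j)).prod) = 0
  generating : (i.range ⊔ j.range).topologicalClosure = (⊤ : StarSubalgebra ℂ E)
  gns_faithful : ∀ a, (∀ x, θ (star (a * x) * (a * x)) = 0) → a = 0

/-- The Lebesgue trace `f ↦ ∫₀¹ f` on `C([0,1])`. -/
def leb (f : C(unitInterval, ℂ)) : ℂ := ∫ x : unitInterval, f x

open Pool.Agent.H923R2 Pool.Agent.H898R3.Mix

theorem toTS {A : Type} [CStarAlgebra A] {t : A →ₗ[ℂ] ℂ} (h : IsTracialState t) : FZ.IsTS t :=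
  ⟨h.one, h.comm, h.pos⟩

theorem ofTS {A : Type} [CStarAlgebra A] {t : A →ₗ[ℂ] ℂ} (h : FZ.IsTS t) : IsTracialState t :=
  ⟨h.1, h.2.1, h.2.2⟩

theorem toJS {Z : Type} [CStarAlgebra Z] (h : IsJiangSu Z) : FZ.IsJS Z := by
  obtain ⟨t, ht, hu⟩ := h.trace
  exact ⟨h.nontrivial, h.simple, ⟨t, toTS ht, fun s hs => hu s (ofTS hs)⟩, h.lim⟩

theorem sup_eq {A B E : Type} [CStarAlgebra A] [CStarAlgebra B] [CStarAlgebra E]
    (i : A →⋆ₐ[ℂ] E) (j : B →⋆ₐ[ℂ] E) :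
    i.range ⊔ j.range = StarAlgebra.adjoin ℂ (⋃ b, Set.range (ee i j b)) := by
  apply le_antisymm
  · refine sup_le ?_ ?_
    · rintro x ⟨y, rfl⟩
      exact StarAlgebra.subset_adjoin ℂ _ (Set.mem_iUnion.2 ⟨true, y, rfl⟩)
    · rintro x ⟨y, rfl⟩
      exact StarAlgebra.subset_adjoin ℂ _ (Set.mem_iUnion.2 ⟨false, y, rfl⟩)
  · refine StarAlgebra.adjoin_le ?_
    refine Set.iUnion_subset ?_
    rintro (_ | _)
    · rintro x ⟨y, rfl⟩
      exact (le_sup_right : j.range ≤ i.range ⊔ j.range) ⟨y, rfl⟩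
    · rintro x ⟨y, rfl⟩
      exact (le_sup_left : i.range ≤ i.range ⊔ j.range) ⟨y, rfl⟩

/-- a letter of the disjoint union -/
def toSum {A B : Type} : (Σ b, DD A B b) → A ⊕ B
  | ⟨true, a⟩ => Sum.inl a
  | ⟨false, b⟩ => Sum.inr b

/-- converse -/
def ofSum {A B : Type} : A ⊕ B → (Σ b, DD A B b)
  | Sum.inl a => ⟨true, a⟩
  | Sum.inr b => ⟨false, b⟩

theorem toRFP {A B E : Type} [CStarAlgebra A] [CStarAlgebra B] [CStarAlgebra E] {φ : A → ℂ}
    {ψ : B → ℂ} {θ : E →ₗ[ℂ] ℂ} {i : A →⋆ₐ[ℂ] E} {j : B →⋆ₐ[ℂ] E}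
    (h : IsReducedFreeProduct φ ψ θ i j) : FZ.IsRFP (DD A B) (tt φ ψ) θ (ee i j) where
  one := h.one
  nonneg := h.pos
  tr := by
    rintro (_ | _) x
    · exact h.right x
    · exact h.left x
  free := by
    intro w hw hc hz
    have := h.free (w.map toSum) (by simpa using hw)
      (by
        rw [List.isChain_map]
        refine hc.imp ?_
        rintro ⟨(_ | _), x⟩ ⟨(_ | _), y⟩ hxy
        · exact absurd rfl hxy
        · exact Bool.false_ne_true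
        · exact Bool.false_ne_true.symm
        · exact absurd rfl hxy)
      (by
        intro z hz'
        obtain ⟨⟨(_ | _), y⟩, hy, rfl⟩ := List.mem_map.1 hz'
        · exact hz _ hy
        · exact hz _ hy)
    rw [List.map_map] at this
    rw [← this]
    congr 2
    refine List.map_congr_left ?_
    rintro ⟨(_ | _), y⟩ _ <;> rfl
  gen := by rw [← sup_eq]; exact h.generating
  gns := h.gns_faithful

theorem ofRFP {A B E : Type} [CStarAlgebra A] [CStarAlgebra B] [CStarAlgebra E] {φ : A → ℂ}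
    {ψ : B → ℂ} {θ : E →ₗ[ℂ] ℂ} {i : A →⋆ₐ[ℂ] E} {j : B →⋆ₐ[ℂ] E}
    (h : FZ.IsRFP (DD A B) (tt φ ψ) θ (ee i j)) : IsReducedFreeProduct φ ψ θ i j where
  one := h.one
  pos := h.nonneg
  left := fun a => h.tr true a
  right := fun b => h.tr false b
  free := by
    intro w hw hc hz
    have := h.free (w.map ofSum) (by simpa using hw)
      (by
        rw [List.isChain_map]
        refine hc.imp ?_
        rintro (x | x) (y | y) hxy
        · exact absurd rfl hxy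
        · exact Bool.false_ne_true.symm
        · exact Bool.false_ne_true
        · exact absurd rfl hxy)
      (by
        intro z hz'
        obtain ⟨(y | y), hy, rfl⟩ := List.mem_map.1 hz'
        · exact hz _ hy
        · exact hz _ hy)
    rw [List.map_map] at this
    rw [← this]
    congr 2
    refine List.map_congr_left ?_
    rintro (y | y) _ <;> rfl
  generating := by rw [sup_eq]; exact h.gen
  gns_faithful := h.gns

/-- two equal factors -/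
theorem rfp_two {A E : Type} [CStarAlgebra A] [CStarAlgebra E] {φ : A → ℂ} {θ : E →ₗ[ℂ] ℂ}
    {e : ∀ b, DD A A b →⋆ₐ[ℂ] E} (h : FP.RFP (DD A A) (tt φ φ) θ e) :
    FP.RFP (J := Fin 2) (fun _ => A) (fun _ => φ) θ ![e true, e false] := by
  refine ⟨h.fts, ?_, ?_, ?_⟩
  · intro j x
    fin_cases j
    · exact h.tr true x
    · exact h.tr false x
  · intro w hw h1 h2
    have h3 := h.free (w.map fun z => (decide (z.1 = 0), z.2)) (by simpa using hw) ?_ ?_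
    · rw [List.map_map] at h3
      exact h3
    · intro z hz
      obtain ⟨⟨k, x⟩, hz', rfl⟩ := List.mem_map.1 hz
      obtain ⟨h4, h5⟩ := h1 _ hz'
      refine ⟨?_, h5⟩
      fin_cases k
      · exact h4
      · exact h4
    · rw [List.isChain_map]
      refine h2.imp ?_
      rintro ⟨k, x⟩ ⟨l, y⟩ hxy
      fin_cases k <;> fin_cases l <;> simp_all
  · rw [← h.gen]
    congr 2
    ext b
    simp only [Set.mem_iUnion]
    constructor
    · rintro ⟨j, hj⟩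
      fin_cases j
      · exact ⟨true, hj⟩
      · exact ⟨false, hj⟩
    · rintro ⟨(_ | _), hj⟩
      · exact ⟨1, hj⟩
      · exact ⟨0, hj⟩

/-- existence of the reduced free product -/
theorem exists_rfp {A B : Type} [CStarAlgebra A] [CStarAlgebra B] (φ : A →ₗ[ℂ] ℂ)
    (ψ : B →ₗ[ℂ] ℂ) (hφ : FP.FTS φ) (hψ : FP.FTS ψ) :
    ∃ (E : Type) (_ : CStarAlgebra E) (θ : E →ₗ[ℂ] ℂ) (i : A →⋆ₐ[ℂ] E) (j : B →⋆ₐ[ℂ] E),
      IsReducedFreeProduct φ ψ θ i j := by
  let tD : ∀ b, DD A B b →ₗ[ℂ] ℂ := fun b => match b with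
    | true => φ
    | false => ψ
  have htD : ∀ b, FP.FTS (tD b) := by
    rintro (_ | _)
    · exact hψ
    · exact hφ
  obtain ⟨E, iE, θ, e, hR⟩ := FZ.All.ex Bool (DD A B) (instDD A B) tD htD
  have h1 := FZ.T_GNSB.t_GNSB Bool (DD A B) (fun b => tD b) E θ e hR
  have h2 : (fun b => (tD b : DD A B b → ℂ)) = tt φ ψ := by
    funext b
    cases b <;> rfl
  have h3 : e = ee (e true) (e false) := by
    funext b
    cases b <;> rfl
  rw [h2, h3] at h1
  exact ⟨E, iE, θ, e true, e false, ofRFP h1⟩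

/-- `(E, θ)` is the reduced free product of `(A, φ)` and `(B, ψ)` (for some embeddings of `A` and `B`
in `E`). -/
def IsFreeProduct {A B : Type} [CStarAlgebra A] [CStarAlgebra B] (φ : A → ℂ) (ψ : B → ℂ)
    {E : Type} [CStarAlgebra E] (θ : E →ₗ[ℂ] ℂ) : Prop :=
  ∃ (i : A →⋆ₐ[ℂ] E) (j : B →⋆ₐ[ℂ] E), IsReducedFreeProduct φ ψ θ i j

/-- The reduced free product of `(A, φ)` and `(B, ψ)` exists. -/
def HasFreeProduct {A B : Type} [CStarAlgebra A] [CStarAlgebra B] (φ : A → ℂ) (ψ : B → ℂ) :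
    Prop :=
  ∃ (E : Type) (_ : CStarAlgebra E) (θ : E →ₗ[ℂ] ℂ), IsFreeProduct φ ψ θ

/-- There is a `*`-isomorphism from `E` onto `F` which carries `θ` to `η`. -/
def StateIso {E F : Type} [CStarAlgebra E] [CStarAlgebra F] (θ : E →ₗ[ℂ] ℂ) (η : F →ₗ[ℂ] ℂ) :
    Prop :=
  ∃ Φ : E ≃⋆ₐ[ℂ] F, ∀ x, η (Φ x) = θ x

/-- **Theorem.** Let `Z` be the Jiang–Su algebra with its tracial state `τ`.  The reduced free
products `C([0,1]) * C([0,1])`, `Z * C([0,1])` and `Z * Z` exist, and they are pairwise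
*-isomorphic (by isomorphisms which preserve the free product states). -/
theorem result :
    ∀ (Z : Type) [CStarAlgebra Z], IsJiangSu Z → ∀ τ : Z →ₗ[ℂ] ℂ, IsTracialState τ →
      (HasFreeProduct leb leb ∧ HasFreeProduct τ leb ∧ HasFreeProduct τ τ) ∧
      ∀ (E₁ E₂ E₃ : Type) [CStarAlgebra E₁] [CStarAlgebra E₂] [CStarAlgebra E₃]
        (θ₁ : E₁ →ₗ[ℂ] ℂ) (θ₂ : E₂ →ₗ[ℂ] ℂ) (θ₃ : E₃ →ₗ[ℂ] ℂ),
        IsFreeProduct leb leb θ₁ → IsFreeProduct τ leb θ₂ → IsFreeProduct τ τ θ₃ →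
        StateIso θ₁ θ₂ ∧ StateIso θ₂ θ₃ ∧ StateIso θ₁ θ₃ := by
  intro Z _ hZ' τ hτ'
  have hZ := toJS hZ'
  have hJ := Pool.Agent.H308R2.ZS.bridge Z hZ τ (toTS hτ')
  have hF : FP.FTS τ := Pool.Agent.H308R2.ZS.all_JFT Z τ hJ
  have hL : FP.FTS Pool.Agent.H308R2.ZS.lebl := Pool.Agent.H308R2.ZS.fts_lebl FZ.T_LEBF.t_LEBF
  refine ⟨⟨exists_rfp _ _ hL hL, exists_rfp _ _ hF hL, exists_rfp _ _ hF hF⟩, ?_⟩
  rintro E₁ E₂ E₃ _ _ _ θ₁ θ₂ θ₃ ⟨i₁, j₁, H1⟩ ⟨i₂, j₂, H2⟩ ⟨i₃, j₃, H3⟩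
  obtain ⟨c, hc⟩ := Pool.Agent.H308R2.ZS.all_LEB Z τ hJ
  have hsep : TopologicalSpace.SeparableSpace Z := Pool.Agent.H308R2.ZS.t_SEPZ Z τ hJ
  have hRWA := Pool.Agent.H308R2.ZS.t_RWAZ Pool.Agent.H308R2.ZS.all_JFT
    Pool.Agent.H308R2.ZS.all_JSTR Z τ hJ
  obtain ⟨W, iW, τW, g, hW⟩ := FZ.All.ex ℕ (fun _ => C(unitInterval, ℂ))
    (fun _ => inferInstance) (fun _ => Pool.Agent.H308R2.ZS.lebl) (fun _ => hL)
  have tl : ∀ x y : C(unitInterval, ℂ), FP.leb (x * y) = FP.leb (y * x) := fun x y => by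
    rw [mul_comm]
  have K1 := FZ.T_GNSF.t_GNSF FZ.T_TRC.t_TRC Bool _ _ E₁ θ₁ _ (by
    rintro (_ | _) x y
    · exact tl x y
    · exact tl x y) (toRFP H1)
  have K2 := FZ.T_GNSF.t_GNSF FZ.T_TRC.t_TRC Bool _ _ E₂ θ₂ _ (by
    rintro (_ | _) x y
    · exact tl x y
    · exact hτ'.comm x y) (toRFP H2)
  have K3 := FZ.T_GNSF.t_GNSF FZ.T_TRC.t_TRC Bool _ _ E₃ θ₃ _ (by
    rintro (_ | _) x y
    · exact hτ'.comm x y
    · exact hτ'.comm x y) (toRFP H3)
  obtain ⟨Φ₁, h1⟩ := powC FZ.All.absi FZ.T_SEPW.t_SEPW FZ.T_SPL.t_SPL FP.All.uniq W τW g hW E₁ θ₁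
    _ (rfp_two K1)
  obtain ⟨Φ₂, h2⟩ := mixed FZ.All.cjz FZ.All.hot FZ.All.absi FZ.T_SEPW.t_SEPW FZ.All.ex
    FZ.T_LEBF.t_LEBF FZ.T_ZERO.t_ZERO FP.All.uniq Z τ hF hRWA c hc W τW g hW E₂ θ₂ _ K2
  obtain ⟨Φ₃, h3⟩ := powZ FZ.All.cjz FZ.All.hot FZ.All.absi FZ.T_SEPW.t_SEPW FZ.All.exw
    FZ.T_ZERO.t_ZERO FP.All.uniq Z τ hF hRWA c hc W τW g hW E₃ θ₃ _ (rfp_two K3)
  refine ⟨⟨Φ₁.trans Φ₂.symm, fun x => ?_⟩, ⟨Φ₂.trans Φ₃.symm, fun x => ?_⟩,
    ⟨Φ₁.trans Φ₃.symm, fun x => ?_⟩⟩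
  · rw [← h1, ← h2, StarAlgEquiv.trans_apply, StarAlgEquiv.apply_symm_apply]
  · rw [← h2, ← h3, StarAlgEquiv.trans_apply, StarAlgEquiv.apply_symm_apply]
  · rw [← h1, ← h3, StarAlgEquiv.trans_apply, StarAlgEquiv.apply_symm_apply]

end Pool.Agent.Results.MP_19112f_an.ReducedFreeProducts
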